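import Pool.Agent.H205R3.Boards

/-!
# Multiboard games are determined with only `ℵ₂ ≤ 2^ℵ₁` boards (MP_0c777d_lc, Q1)

If `K` has successor cardinality and carries a proper `|K|`-complete ideal containing the singletons
whose positive sets have a σ-closed dense subfamily (a Laver ideal), then `D(λ, |K|)` holds for all
`1 ≤ λ < |K|`. By a theorem of Laver such an ideal exists on `ω₂` after the Levy collapse of a
measurable cardinal to `ω₂`; so it is consistent (relative to a measurable cardinal) that
`D(ℵ₁, ℵ₂)` holds, where `ℵ₂ ≤ 2^ℵ₁ < (2^ℵ₁)⁺`. This is the negated form of Q1.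

Proof. ONE keeps a tree of pairwise disjoint positive sets `B s` of boards, where `s` runs over the
finite sequences of ONE's moves: `B s` is split into `λ` positive pieces (Ulam's theorem), ONE plays
`i` on the `i`-th piece, TWO's reply is constant, `= τ (s, i)`, on a positive subset of the piece by
completeness, and this is shrunk to a member of the dense family. If TWO has no winning strategy on
one board then `τ` loses against some play of ONE, and the boards in the intersection along the
corresponding branch, which is nonempty because the family is σ-closed, are won by ONE.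
-/

set_option autoImplicit false

open Cardinal

namespace Pool.Agent.Results.MP_0c777d_lc.LaverBoards

open Pool.Agent.H205R3.Boards

/-- Suppose that `|K| = |M|⁺` for an infinite `M`, and that `K` carries a Laver ideal. Then
`D(λ, |K|)` holds for every `λ` with `1 ≤ λ < |K|`; since `|K| ≤ 2^|M|`, the case `λ = |M|` shows
that the implication asked for in Q1 fails: not all `λ ≥ 2`, `κ ≥ 1` with `D(λ, κ)` satisfy
`κ ≥ (2^λ)⁺`. -/
theorem result (M K : Type) (hM : ℵ₀ ≤ #M) (hK : #K = Order.succ #M)
    (hI : ∃ I D : Set (Set K), LaverIdeal K I D) :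
    (∀ L : Type, 1 ≤ #L → #L < #K → BoardDet L K) ∧
    #K ≤ 2 ^ #M ∧
    ¬ ∀ L K : Type, (2 : Cardinal) ≤ #L → (1 : Cardinal) ≤ #K → BoardDet L K →
        (2 : Cardinal) ^ #L < #K ∧ ℵ₀ ≤ #K := by
  have h1 : ∀ L : Type, 1 ≤ #L → #L < #K → BoardDet L K :=
    fun L hL hLK => boardDet_of_laverIdeal L M K hM hK hL hLK hI
  have h2 : #K ≤ 2 ^ #M := by
    rw [hK]
    exact Order.succ_le_of_lt (Cardinal.cantor _)
  refine ⟨h1, h2, ?_⟩
  intro hQ
  have hM1 : 1 ≤ #M := Cardinal.one_le_aleph0.trans hM
  have hMK : #M < #K := by rw [hK]; exact Order.lt_succ _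
  have := (hQ M K ((Cardinal.natCast_lt_aleph0 (n := 2)).le.trans hM)
    (hM1.trans hMK.le) (h1 M hM1 hMK)).1
  exact absurd h2 (not_le.2 this)

end Pool.Agent.Results.MP_0c777d_lc.LaverBoards
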